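import Pool.Agent.H337R3.Sid6

set_option autoImplicit false

open MeasureTheory

namespace Pool.Agent.Results.MP_080bf7_an.SubgaussianIff

/-- The compact abelian group `G = (ℤ/4ℤ)^ℕ`, with the product topology and its Borel sets. -/
abbrev G : Type := ℕ → ZMod 4

/-- Its dual group: the finitely supported sequences in `ℤ/4ℤ`, written additively. -/
abbrev Ghat : Type := ℕ →₀ ZMod 4

/-- Normalised Haar measure on `G` (the Haar measure giving mass one to the whole group). -/
noncomputable def mG : Measure G := Measure.addHaarMeasure ⊤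

/-- The character `γ_n(t) = exp(2πi (∑ t_k n_k) / 4)`; the sum is taken in `ℤ/4ℤ` and represented by
an element of `{0, 1, 2, 3}`. -/
noncomputable def char (n : Ghat) (t : G) : ℂ :=
  Complex.exp (2 * Real.pi * Complex.I * (((∑ k ∈ n.support, t k * n k).val : ℕ) : ℂ) / 4)

/-- The `ψ₂` norm: `inf {c > 0 : ∫ exp(|f|² / c²) dm_G ≤ e}`. -/
noncomputable def psi2 (f : G → ℂ) : ℝ :=
  sInf {c : ℝ | 0 < c ∧ ∫ t, Real.exp (‖f t‖ ^ 2 / c ^ 2) ∂mG ≤ Real.exp 1}

/-- `Λ` is subgaussian: `‖∑ a_n γ_n‖_ψ₂ ≤ C (∑ |a_n|²)^{1/2}` for all finitely supported families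
of complex coefficients on `Λ`. -/
def Subgaussian (Λ : Set Ghat) : Prop :=
  ∃ C : ℝ, ∀ (A : Finset Ghat) (a : Ghat → ℂ), (A : Set Ghat) ⊆ Λ →
    psi2 (fun t => ∑ n ∈ A, a n * char n t) ≤ C * Real.sqrt (∑ n ∈ A, ‖a n‖ ^ 2)

/-- `Λ` is quasi-independent: a relation `∑_{x ∈ A} ξ_x x = 0` with `A ⊆ Λ` finite and
`ξ_x ∈ {-1, 0, 1}` is trivial. -/
def QuasiIndependent (Λ : Set Ghat) : Prop :=
  ∀ A : Finset Ghat, (A : Set Ghat) ⊆ Λ → ∀ ξ : Ghat → ℤ,
    (∀ x ∈ A, ξ x = -1 ∨ ξ x = 0 ∨ ξ x = 1) → ∑ x ∈ A, ξ x • x = 0 → ∀ x ∈ A, ξ x = 0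

theorem char_eq (n : Ghat) (t : G) :
    char n t = ZMod.stdAddChar (∑ k ∈ n.support, t k * n k) := by
  set x := ∑ k ∈ n.support, t k * n k with hx
  have h1 : ((x.val : ℤ) : ZMod 4) = x := by
    rw [Int.cast_natCast, ZMod.natCast_zmod_val]
  have h2 := ZMod.stdAddChar_coe (N := 4) (x.val : ℤ)
  rw [h1] at h2
  rw [h2]
  unfold char
  rw [← hx]
  push_cast
  rfl

theorem char_eq' (n : Ghat) (t : G) :
    char n t = ZMod.stdAddChar (n.sum fun k a => t k * a) := char_eq n t

theorem prob : IsProbabilityMeasure mG := by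
  refine ⟨?_⟩
  have h := Measure.addHaarMeasure_self (K₀ := (⊤ : TopologicalSpace.PositiveCompacts G))
  rwa [TopologicalSpace.PositiveCompacts.coe_top] at h

theorem charSys : Pool.Agent.H337R3.Sid.CharSys mG char := by
  have _ := prob
  have hadd : ∀ (n : Ghat) (s t : G), char n (s + t) = char n s * char n t := by
    intro n s t
    rw [char_eq, char_eq, char_eq, ← AddChar.map_add_eq_mul, ← Finset.sum_add_distrib]
    congr 1
    apply Finset.sum_congr rfl
    intro k _
    rw [Pi.add_apply, add_mul]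
  refine ⟨?_, ?_, ?_, ?_, ?_⟩
  · intro t
    rw [char_eq', Finsupp.sum_zero_index, AddChar.map_zero_eq_one]
  · intro m n t
    rw [char_eq', char_eq', char_eq', ← AddChar.map_add_eq_mul, Finsupp.sum_add_index']
    · intro k; rw [mul_zero]
    · intro k a b; rw [mul_add]
  · intro n t
    rw [char_eq, ZMod.stdAddChar_apply, Circle.norm_coe]
  · intro n
    apply Continuous.measurable
    have : char n = fun t => ZMod.stdAddChar (∑ k ∈ n.support, t k * n k) := funext (char_eq n)
    rw [this]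
    have h1 : Continuous (fun x : ZMod 4 => (ZMod.stdAddChar x : ℂ)) := continuous_of_discreteTopology
    apply h1.comp
    apply continuous_finsetSum
    intro k _
    have h2 : Continuous (fun x : ZMod 4 => x * n k) := continuous_of_discreteTopology
    exact h2.comp (continuous_apply k)
  · intro n hn
    obtain ⟨k, hk⟩ := Finsupp.ne_iff.mp hn
    rw [Finsupp.coe_zero, Pi.zero_apply] at hk
    set s : G := Pi.single k 1 with hs
    have hchar : char n s ≠ 1 := by
      rw [char_eq]
      have h1 : ∑ j ∈ n.support, s j * n j = n k := by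
        rw [Finset.sum_eq_single k]
        · rw [hs, Pi.single_eq_same, one_mul]
        · intro j _ hj
          rw [hs, Pi.single_eq_of_ne hj, zero_mul]
        · intro h
          exact absurd (Finsupp.mem_support_iff.mpr hk) h
      rw [h1]
      intro h
      apply hk
      apply ZMod.injective_stdAddChar (N := 4)
      rw [h, AddChar.map_zero_eq_one]
    have h1 : ∫ t, char n (s + t) ∂mG = ∫ t, char n t ∂mG := by
      unfold mG
      exact integral_add_left_eq_self (μ := Measure.addHaarMeasure (⊤ : TopologicalSpace.PositiveCompacts G))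
        (char n) s
    simp_rw [hadd] at h1
    rw [integral_const_mul] at h1
    have h2 : (char n s - 1) * ∫ t, char n t ∂mG = 0 := by
      rw [sub_mul, h1, one_mul, sub_self]
    rcases mul_eq_zero.mp h2 with h | h
    · exact absurd (sub_eq_zero.mp h) hchar
    · exact h

/-- **Q1, answered affirmatively.** A set `Λ` of nontrivial characters of `(ℤ/4ℤ)^ℕ` is subgaussian
if and only if it is a finite union of quasi-independent sets. -/
theorem result (Λ : Set Ghat) (h0 : (0 : Ghat) ∉ Λ) :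
    Subgaussian Λ ↔
      ∃ (k : ℕ) (Q : Fin k → Set Ghat), (∀ i, QuasiIndependent (Q i)) ∧ Λ = ⋃ i, Q i := by
  have _ := prob
  have hexp : ∀ x : Ghat, 4 • x = 0 := by
    intro x
    ext k
    rw [Finsupp.smul_apply, Finsupp.coe_zero, Pi.zero_apply, nsmul_eq_mul]
    have : ((4 : ℕ) : ZMod 4) = 0 := by decide
    rw [this, zero_mul]
  constructor
  · rintro ⟨C, hC⟩
    obtain ⟨K, hK⟩ := Pool.Agent.H337R3.Sid.small_of_psi2 charSys Λ
      (fun D _ => Pool.Agent.H337R3.Sid.closure_finite 4 (by norm_num) D (fun x _ => hexp x)) h0 C hC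
    obtain ⟨Q, hQ, hΛ⟩ := Pool.Agent.H337R3.Sid.finite_union [2, 2]
      (by intro q hq; simp at hq; rw [hq]; exact Nat.prime_two) K Λ (fun x _ => by simpa using hexp x) hK
    exact ⟨_, Q, hQ, hΛ⟩
  · rintro ⟨k, Q, hQ, hΛ⟩
    exact ⟨Real.sqrt 8 * k, fun A a hA =>
      Pool.Agent.H337R3.Sid.psi2_of_union charSys Λ k Q hQ hΛ A a hA⟩

end Pool.Agent.Results.MP_080bf7_an.SubgaussianIff
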